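import Pool.Agent.H54.ConeGroup

/-!
# Ordered commutative group structures on the positive definite cone characterise commutativity
-/

namespace Pool.Agent.Results.MP_b405c8_an.OrderedCone

/-- The usual order of a C*-algebra: `b - a` is positive, i.e. of the form `c* c`. -/
def Le {A : Type} [CStarAlgebra A] (a b : A) : Prop := ∃ c : A, b - a = star c * c

/-- The positive definite cone: positive invertible elements. -/
def Cone (A : Type) [CStarAlgebra A] : Type := {a : A // Le 0 a ∧ IsUnit a}

/-- `op` makes the positive definite cone an ordered commutative group under the usual order. -/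
structure OrderedCommGroupLaw {A : Type} [CStarAlgebra A] (op : Cone A → Cone A → Cone A) :
    Prop where
  /-- associativity -/
  assoc : ∀ a b c, op (op a b) c = op a (op b c)
  /-- commutativity -/
  comm : ∀ a b, op a b = op b a
  /-- unit and inverses -/
  unit_inv : ∃ e, (∀ a, op a e = a) ∧ ∀ a, ∃ b, op a b = e
  /-- translations preserve the order -/
  mono : ∀ a b c : Cone A, Le a.1 b.1 → Le (op a c).1 (op b c).1

theorem le_iff {A : Type} [CStarAlgebra A] [PartialOrder A] [StarOrderedRing A] {a b : A} :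
    Le a b ↔ a ≤ b := by
  rw [← sub_nonneg, CStarAlgebra.nonneg_iff_eq_star_mul_self]
  rfl

/-- **Full positive answer to Q1**, with the converse. -/
theorem result : ∀ (A : Type) [CStarAlgebra A],
    (∃ op : Cone A → Cone A → Cone A, OrderedCommGroupLaw op) ↔ ∀ x y : A, x * y = y * x := by
  intro A _
  let _ := CStarAlgebra.spectralOrder A
  have _ := CStarAlgebra.spectralOrderedRing A
  constructor
  · rintro ⟨op, h⟩
    obtain ⟨e, he, hinv⟩ := h.unit_inv
    choose inv hinv using hinv
    let iz : Zero (Cone A) := ⟨e⟩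
    let ia : Add (Cone A) := ⟨op⟩
    let ineg : Neg (Cone A) := ⟨inv⟩
    let grp : AddCommGroup (Cone A) :=
      { add_assoc := h.assoc
        zero_add := fun a => (h.comm e a).trans (he a)
        add_zero := he
        nsmul := nsmulRec
        zsmul := zsmulRec
        neg_add_cancel := fun a => (h.comm (inv a) a).trans (hinv a)
        add_comm := h.comm }
    let po : PartialOrder (Cone A) := PartialOrder.lift (fun a : Cone A => a.1) Subtype.val_injective
    have ord : IsOrderedAddMonoid (Cone A) :=
      { add_le_add_left := fun a b hab c => by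
          change (op a c).1 ≤ (op b c).1
          exact le_iff.1 (h.mono a b c (le_iff.2 hab)) }
    let ι : Cone A → selfAdjoint A := fun a => ⟨a.1, IsSelfAdjoint.of_nonneg (le_iff.1 a.2.1)⟩
    have hι : H54.ConeIso (1 : selfAdjoint A) ι :=
      { le_iff := fun g h => Iff.rfl
        mem := fun g => H54.mem_posCone_iff.2 ⟨le_iff.1 g.2.1, g.2.2⟩
        surj := fun x hx => ⟨⟨x, le_iff.2 (H54.mem_posCone_iff.1 hx).1,
          (H54.mem_posCone_iff.1 hx).2⟩, rfl⟩ }
    exact H54.commutative_of_coneIso hι
  · intro hc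
    have key : ∀ a b : A, 0 ≤ a → 0 ≤ b → 0 ≤ a * b := fun a b ha hb =>
      Commute.mul_nonneg ha hb (hc a b)
    refine ⟨fun a b => ⟨a.1 * b.1, le_iff.2 (key _ _ (le_iff.1 a.2.1) (le_iff.1 b.2.1)),
      a.2.2.mul b.2.2⟩, ?_, ?_, ?_, ?_⟩
    · intro a b c
      exact Subtype.ext (mul_assoc _ _ _)
    · intro a b
      exact Subtype.ext (hc _ _)
    · refine ⟨⟨1, le_iff.2 zero_le_one, isUnit_one⟩, fun a => Subtype.ext (mul_one _), ?_⟩
      intro a
      obtain ⟨u, hu⟩ := a.2.2
      have hun : (0 : A) ≤ (u : A) := by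
        rw [hu]
        exact le_iff.1 a.2.1
      have hpos : 0 ≤ ((u⁻¹ : Aˣ) : A) := by
        have h1 : ((u⁻¹ : Aˣ) : A) = star ((u⁻¹ : Aˣ) : A) * (u : A) * ((u⁻¹ : Aˣ) : A) := by
          rw [mul_assoc, Units.mul_inv, mul_one]
          have h2 : star (u : A) = (u : A) := (IsSelfAdjoint.of_nonneg hun)
          have h3 : star (u : A) * star ((u⁻¹ : Aˣ) : A) = 1 := by
            rw [← star_mul, Units.inv_mul, star_one]
          rw [h2] at h3
          calc ((u⁻¹ : Aˣ) : A) = ((u⁻¹ : Aˣ) : A) * ((u : A) * star ((u⁻¹ : Aˣ) : A)) := by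
                rw [h3, mul_one]
            _ = star ((u⁻¹ : Aˣ) : A) := by rw [← mul_assoc, Units.inv_mul, one_mul]
        rw [h1]
        exact star_left_conjugate_nonneg hun _
      refine ⟨⟨((u⁻¹ : Aˣ) : A), le_iff.2 hpos, Units.isUnit _⟩, ?_⟩
      apply Subtype.ext
      change a.1 * ((u⁻¹ : Aˣ) : A) = 1
      rw [← hu, Units.mul_inv]
    · intro a b c hab
      have hab' := le_iff.1 hab
      apply le_iff.2
      change a.1 * c.1 ≤ b.1 * c.1
      rw [← sub_nonneg, ← sub_mul]
      exact key _ _ (sub_nonneg.2 hab') (le_iff.1 c.2.1)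

end Pool.Agent.Results.MP_b405c8_an.OrderedCone
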